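import Pool.Agent.Y233.Fr.Few

/-!
# Fröberg's conjecture for spaces of few or of many forms of the same degree

Let `K` be an infinite field. The largest `dim S_j V` over the `u`-dimensional spaces `V` of forms of
degree `d` in `n` variables is the one predicted by Fröberg

* for every `j`, if `n ≥ 3` and `u ≥ 2 ^ (n - 1)`;
* for every `j` with `2 j + m + 1 ≤ 2 d`, where `u ≤ 2 ^ m`.

The format is the one of the frozen statement `S00009`.

Idea of the proof: see `Pool/Agent/Results/MP_3395a4_ag/TwoPowForms.lean` and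
`Pool/Agent/Results/MP_3395a4_ag/FewForms.lean`.
-/

set_option autoImplicit false

namespace Pool.Agent.Results.MP_09261c_ag.FewOrManyForms

/-- Fröberg's formula for the largest `dim S_j V` over the `u`-dimensional spaces `V` of forms of
degree `d`, for all `j` if `u ≥ 2 ^ (n - 1)`, and for `2 j + m + 1 ≤ 2 d` if `u ≤ 2 ^ m`. -/
theorem result :
    ∀ (K : Type) [Field K] [Infinite K] (n d u : ℕ), 1 ≤ n → 1 ≤ d → 1 ≤ u →
      u ≤ Module.finrank K (MvPolynomial.homogeneousSubmodule (Fin n) K d) →
      ∀ a : ℕ → ℤ,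
        (∀ i : ℕ, a i = ∑ k ∈ Finset.range (u + 1),
          (-1 : ℤ) ^ k * (u.choose k : ℤ) *
            (if d * k ≤ i then ((n - 1 + i - d * k).choose (n - 1) : ℤ) else 0)) →
      ∀ c : ℕ → ℤ,
        (∀ i : ℕ, ((∀ m : ℕ, m ≤ i → 0 ≤ a m) → c i = a i) ∧
                  ((∃ m : ℕ, m ≤ i ∧ a m < 0) → c i = 0)) →
      ∀ j : ℕ,
        ((3 ≤ n ∧ 2 ^ (n - 1) ≤ u) ∨ ∃ m, u ≤ 2 ^ m ∧ 2 * j + m + 1 ≤ 2 * d) →
        (∀ V : Submodule K (MvPolynomial (Fin n) K),
            V ≤ MvPolynomial.homogeneousSubmodule (Fin n) K d →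
            Module.finrank K V = u →
            (Module.finrank K (Submodule.span K (Set.image2 (· * ·)
                ((MvPolynomial.homogeneousSubmodule (Fin n) K j : Submodule K (MvPolynomial (Fin n) K)) :
                  Set (MvPolynomial (Fin n) K))
                (V : Set (MvPolynomial (Fin n) K)))) : ℤ)
              ≤ (Module.finrank K (MvPolynomial.homogeneousSubmodule (Fin n) K (j + d)) : ℤ)
                  - c (j + d)) ∧
        (∃ V : Submodule K (MvPolynomial (Fin n) K),
            V ≤ MvPolynomial.homogeneousSubmodule (Fin n) K d ∧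
            Module.finrank K V = u ∧
            (Module.finrank K (Submodule.span K (Set.image2 (· * ·)
                ((MvPolynomial.homogeneousSubmodule (Fin n) K j : Submodule K (MvPolynomial (Fin n) K)) :
                  Set (MvPolynomial (Fin n) K))
                (V : Set (MvPolynomial (Fin n) K)))) : ℤ)
              = (Module.finrank K (MvPolynomial.homogeneousSubmodule (Fin n) K (j + d)) : ℤ)
                  - c (j + d)) := by
  intro K _ _ n d u hn hd hu hud a ha c hc j hj
  rcases hj with ⟨h1, h2⟩ | ⟨m, h1, h2⟩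
  · exact Pool.Agent.Y233.FrE.main_half K n d u h1 hd h2 hud a ha c hc j
  · exact Pool.Agent.Y233.FrE.main_few K m n d u hn hu h1 hud a ha c hc j h2

end Pool.Agent.Results.MP_09261c_ag.FewOrManyForms
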