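import Pool.Agent.Y233.Fr.Equal

/-!
# Fröberg's conjecture for spaces of forms of the same degree: degrees up to `2 d - n / 2`, and all
degrees for spaces of dimension at least `2 ^ n`

The format is the one of the frozen statement `S00009`, over an arbitrary infinite field `K` (in
particular over every field of characteristic `0`).

* The formula holds for all `u` and all `j` such that for some `k < d` with `j ≤ k` one of the
  following holds: `n ≤ 2 (d - k)`, `k n + (d - k) ≤ (d - k) (d + k)`, `2 k + 1 ≤ d`,
  `2 k + 2 ≤ n` or `2 (n + k) dim S_k ≤ n dim S_d`.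
* It holds for all `j` if in addition `u * dim S_k > dim S_{d + k}`, in particular for all `j` if
  `u > 2 ^ n`.

Idea of the proof: see `Pool/Agent/Results/MP_3395a4_ag/NearlyTwiceTheDegree.lean` for the degrees
`d + j`, `j ≤ k`. If `u * dim S_k > dim S_{d + k}`, the generic space generates all forms of degree
`d + k`, so the remaining degrees follow, and the truncated series vanishes there. The upper bound
is `dim S_j V ≤ min (u * dim S_j, dim S_{d + j})`.
-/

set_option autoImplicit false

namespace Pool.Agent.Results.MP_09261c_ag.NearlyTwiceTheDegree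

/-- Fröberg's formula for the largest `dim S_j V` over the `u`-dimensional spaces `V` of forms of
degree `d`. -/
theorem result :
    ∀ (K : Type) [Field K] [Infinite K] (n d u : ℕ), 1 ≤ n → 1 ≤ d → 1 ≤ u →
      u ≤ Module.finrank K (MvPolynomial.homogeneousSubmodule (Fin n) K d) →
      ∀ a : ℕ → ℤ,
        (∀ i : ℕ, a i = ∑ k ∈ Finset.range (u + 1),
          (-1 : ℤ) ^ k * (u.choose k : ℤ) *
            (if d * k ≤ i then ((n - 1 + i - d * k).choose (n - 1) : ℤ) else 0)) →
      ∀ c : ℕ → ℤ,
        (∀ i : ℕ, ((∀ m : ℕ, m ≤ i → 0 ≤ a m) → c i = a i) ∧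
                  ((∃ m : ℕ, m ≤ i ∧ a m < 0) → c i = 0)) →
      ∀ j : ℕ,
        (2 ^ n < u ∨ ∃ k < d,
          (n ≤ 2 * (d - k) ∨ k * n + (d - k) ≤ (d - k) * (d + k) ∨ 2 * k + 1 ≤ d ∨
            2 * k + 2 ≤ n ∨ 2 * (n + k) * (n + k - 1).choose k ≤ n * (n + d - 1).choose d) ∧
          (j ≤ k ∨
            Module.finrank K (MvPolynomial.homogeneousSubmodule (Fin n) K (d + k)) <
              u * Module.finrank K (MvPolynomial.homogeneousSubmodule (Fin n) K k))) →
        (∀ V : Submodule K (MvPolynomial (Fin n) K),
            V ≤ MvPolynomial.homogeneousSubmodule (Fin n) K d →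
            Module.finrank K V = u →
            (Module.finrank K (Submodule.span K (Set.image2 (· * ·)
                ((MvPolynomial.homogeneousSubmodule (Fin n) K j : Submodule K (MvPolynomial (Fin n) K)) :
                  Set (MvPolynomial (Fin n) K))
                (V : Set (MvPolynomial (Fin n) K)))) : ℤ)
              ≤ (Module.finrank K (MvPolynomial.homogeneousSubmodule (Fin n) K (j + d)) : ℤ)
                  - c (j + d)) ∧
        (∃ V : Submodule K (MvPolynomial (Fin n) K),
            V ≤ MvPolynomial.homogeneousSubmodule (Fin n) K d ∧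
            Module.finrank K V = u ∧
            (Module.finrank K (Submodule.span K (Set.image2 (· * ·)
                ((MvPolynomial.homogeneousSubmodule (Fin n) K j : Submodule K (MvPolynomial (Fin n) K)) :
                  Set (MvPolynomial (Fin n) K))
                (V : Set (MvPolynomial (Fin n) K)))) : ℤ)
              = (Module.finrank K (MvPolynomial.homogeneousSubmodule (Fin n) K (j + d)) : ℤ)
                  - c (j + d)) := by
  intro K _ _ n d u hn hd hu hud a ha c hc j hj
  rcases hj with hj | ⟨k, hkd, hcond, hj⟩
  · obtain ⟨k, hk, hg, hN⟩ := Pool.Agent.Y233.FrE.exists_cnd K n d u hn hd hj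
    exact Pool.Agent.Y233.FrE.main K n d u k hn hu hk hg hud a ha c hc j (Or.inr hN)
  · exact Pool.Agent.Y233.FrE.main K n d u k hn hu hkd
      (Pool.Agent.Y233.FrE.cnd_of hn hkd hcond) hud a ha c hc j hj

end Pool.Agent.Results.MP_09261c_ag.NearlyTwiceTheDegree
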